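import Pool.Agent.N384.VF.Seq
import Pool.Agent.N24.RW.Defs

set_option autoImplicit false
set_option linter.all false

/-!
Pronull sets and families of vectors of residues with small Fourier coefficients.
-/

namespace Pool.Agent.N18.RV

open Finset Filter Topology
open Pool.Agent.Y722.HS (red)
open Pool.Agent.N24.RW (ProNull)
open Pool.Agent.N384.VF

section

variable {ι : Type} [Fintype ι] [DecidableEq ι]

/-- Few members of a family with small Fourier coefficients are in a pronull set. -/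
theorem count_null (B : Set (ι → ℤ)) (hB : ProNull B) (ε : ℝ) (hε : 0 < ε) :
    ∃ Z₀ : ℝ, ∀ (τ : Type) (q : ℕ) [NeZero q] (s : Finset τ) (y : τ → ι → ZMod q) (Z : ℝ), Z₀ ≤ Z →
      VFam q s y Z → ∀ c₀ : ι → ℤ,
        ({x : τ | x ∈ s ∧ (fun j => c₀ j + (((y x j).val : ℕ) : ℤ)) ∈ B}.ncard : ℝ) ≤ ε * s.card := by
  classical
  obtain ⟨Q, hQ, -, hc⟩ := hB 1 one_pos (ε / 2) (by positivity)
  have : NeZero Q := ⟨hQ.ne'⟩
  obtain ⟨r, hr⟩ : ∃ r, r = Fintype.card ι := ⟨_, rfl⟩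
  rw [← hr] at hc
  have hQ0 : (0 : ℝ) < Q := by exact_mod_cast hQ
  have hQ1 : (1 : ℝ) ≤ Q := by exact_mod_cast hQ
  refine ⟨2 * (Q : ℝ) ^ (r + 1) + 1, fun τ q _ s y Z hZ hv c₀ => ?_⟩
  have hQp : (0 : ℝ) < (Q : ℝ) ^ (r + 1) := by positivity
  have hZ0 : 0 < Z := by linarith
  rcases s.eq_empty_or_nonempty with h0 | hs
  · subst h0
    simp
  have hs0 : (0 : ℝ) < s.card := by exact_mod_cast hs.card_pos
  obtain ⟨v, hvd⟩ : ∃ v : τ → ι → ℤ, v = fun x j => c₀ j + (((y x j).val : ℕ) : ℤ) := ⟨_, rfl⟩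
  obtain ⟨I, hI⟩ : ∃ I : Set (ι → ZMod Q), I = (fun (c : ι → ℤ) (i : ι) => (c i : ZMod Q)) '' B := ⟨_, rfl⟩
  rw [← hI] at hc
  have hIf : I.Finite := Set.toFinite I
  have h1 : {x : τ | x ∈ s ∧ v x ∈ B} ⊆ ↑(hIf.toFinset.biUnion fun ρ => s.filter fun x => red Q (v x) = ρ) := by
    rintro x ⟨hx, hxB⟩
    rw [Finset.mem_coe, Finset.mem_biUnion]
    refine ⟨red Q (v x), ?_, Finset.mem_filter.2 ⟨hx, rfl⟩⟩
    rw [Set.Finite.mem_toFinset, hI]
    exact ⟨v x, hxB, rfl⟩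
  have h2 : ({x : τ | x ∈ s ∧ v x ∈ B}.ncard : ℝ) ≤
      ∑ ρ ∈ hIf.toFinset, ((s.filter fun x => red Q (v x) = ρ).card : ℝ) := by
    have h3 := Set.ncard_le_ncard h1 (Finset.finite_toSet _)
    rw [Set.ncard_coe_finset] at h3
    have h4 := h3.trans Finset.card_biUnion_le
    exact_mod_cast h4
  have hq0 : (0 : ℝ) < q := lt_of_lt_of_le hZ0 hv.le
  have hL : 1 ≤ 42 + 3 * Real.log q := by
    have := Real.log_natCast_nonneg q
    linarith
  have h5 : ∀ ρ : ι → ZMod Q, ((s.filter fun x => red Q (v x) = ρ).card : ℝ) ≤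
      s.card * (1 / (Q : ℝ) ^ r + 2 * Q / Z) := by
    intro ρ
    have h6 := count_le q _ (by positivity) s hs y hv.flat c₀ Q hQ ρ
    have e1 : 1 / (Z * (42 + 3 * Real.log q) ^ Fintype.card ι) * (42 + 3 * Real.log q) ^ Fintype.card ι = 1 / Z := by
      field_simp
    rw [e1, ← hr] at h6
    have h7 := (abs_le.1 h6).2
    have h8 : (Q : ℝ) / q ≤ Q / Z := div_le_div_of_nonneg_left hQ0.le hZ0 hv.le
    have h9 : 1 / Z ≤ (Q : ℝ) / Z := div_le_div_of_nonneg_right hQ1 hZ0.le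
    have h10 : ((s.filter fun x => red Q (v x) = ρ).card : ℝ) / s.card ≤ 1 / (Q : ℝ) ^ r + 2 * Q / Z := by
      have e2 : 2 * (Q : ℝ) / Z = Q / Z + Q / Z := by ring
      rw [e2, hvd]
      linarith
    rw [div_le_iff₀ hs0] at h10
    linarith
  have h11 : (hIf.toFinset.card : ℝ) ≤ ε / 2 * (Q : ℝ) ^ r := by
    rw [← Set.ncard_eq_toFinset_card I hIf]
    exact hc
  have e3 : {x : τ | x ∈ s ∧ (fun j => c₀ j + (((y x j).val : ℕ) : ℤ)) ∈ B} = {x : τ | x ∈ s ∧ v x ∈ B} := by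
    rw [hvd]
  rw [e3]
  refine h2.trans ((Finset.sum_le_card_nsmul _ _ _ fun ρ _ => h5 ρ).trans ?_)
  rw [nsmul_eq_mul]
  have h12 : 2 * (Q : ℝ) ^ (r + 1) / Z ≤ 1 := by
    rw [div_le_one hZ0]
    linarith
  calc (hIf.toFinset.card : ℝ) * (s.card * (1 / (Q : ℝ) ^ r + 2 * Q / Z)) ≤
        (ε / 2 * (Q : ℝ) ^ r) * (s.card * (1 / (Q : ℝ) ^ r + 2 * Q / Z)) :=
        mul_le_mul_of_nonneg_right h11 (by positivity)
    _ = (ε / 2 * s.card) * (1 + 2 * (Q : ℝ) ^ (r + 1) / Z) := by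
        field_simp
        ring
    _ ≤ (ε / 2 * s.card) * (1 + 1) := by
        apply mul_le_mul_of_nonneg_left _ (by positivity)
        linarith
    _ = ε * s.card := by ring

/-- **One exceptional set of vectors for each size `Z`**, for increasingly many pronull conditions. -/
theorem diag (B : ℕ → Set (ι → ℤ)) (hmono : Monotone B) (hB : ∀ D, ProNull (B D)) :
    ∃ (E : ℝ → Set (ι → ℤ)) (ω : ℝ → ℝ), Tendsto ω atTop (𝓝 0) ∧
      (∀ D, ∃ K : ℝ, ∀ Z, K ≤ Z → B D ⊆ E Z) ∧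
      ∀ (τ : Type) (q : ℕ) [NeZero q] (s : Finset τ) (y : τ → ι → ZMod q) (Z : ℝ), VFam q s y Z →
        ∀ c₀ : ι → ℤ,
          ({x : τ | x ∈ s ∧ (fun j => c₀ j + (((y x j).val : ℕ) : ℤ)) ∈ E Z}.ncard : ℝ) ≤ ω Z * s.card := by
  classical
  choose Z₀ hZ₀ using fun D : ℕ => count_null (B D) (hB D) (1 / ((D : ℝ) + 1)) (by positivity)
  obtain ⟨κ, hκ⟩ : ∃ κ : ℝ → ℕ, κ = fun Z => Nat.findGreatest (fun D => Z₀ D ≤ Z) ⌊Z⌋₊ := ⟨_, rfl⟩
  have hκge : ∀ (D : ℕ) (Z : ℝ), (D : ℝ) ≤ Z → Z₀ D ≤ Z → D ≤ κ Z ∧ Z₀ (κ Z) ≤ Z := by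
    intro D Z h1 h2
    have h3 : D ≤ ⌊Z⌋₊ := Nat.le_floor h1
    rw [hκ]
    exact ⟨Nat.le_findGreatest h3 h2, Nat.findGreatest_spec (P := fun D => Z₀ D ≤ Z) h3 h2⟩
  refine ⟨fun Z => if Z₀ (κ Z) ≤ Z then B (κ Z) else ∅, fun Z => 1 / ((κ Z : ℝ) + 1), ?_, ?_, ?_⟩
  · rw [Metric.tendsto_atTop]
    intro ε hε
    obtain ⟨D, hD⟩ := exists_nat_one_div_lt hε
    refine ⟨max (D : ℝ) (Z₀ D), fun Z hZ => ?_⟩
    have h1 := (hκge D Z ((le_max_left _ _).trans hZ) ((le_max_right _ _).trans hZ)).1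
    have h2 : (D : ℝ) ≤ κ Z := by exact_mod_cast h1
    rw [Real.dist_eq, sub_zero, abs_of_nonneg (by positivity)]
    refine lt_of_le_of_lt ?_ hD
    apply one_div_le_one_div_of_le (by positivity)
    linarith
  · intro D
    refine ⟨max (D : ℝ) (Z₀ D), fun Z hZ => ?_⟩
    obtain ⟨h1, h2⟩ := hκge D Z ((le_max_left _ _).trans hZ) ((le_max_right _ _).trans hZ)
    simp only [if_pos h2]
    exact hmono h1
  · intro τ q _ s y Z hv c₀
    by_cases h : Z₀ (κ Z) ≤ Z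
    · simp only [if_pos h]
      exact hZ₀ (κ Z) τ q s y Z h hv c₀
    · simp only [if_neg h, Set.mem_empty_iff_false, and_false, Set.setOf_false, Set.ncard_empty, Nat.cast_zero]
      positivity

end

end Pool.Agent.N18.RV
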